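import Mathlib

set_option autoImplicit false

namespace Pool.Agent.Results.MP_df5a7a_co.Counter

def G (N : ℕ) : SimpleGraph (Fin N × Fin N) :=
  SimpleGraph.fromRel fun p q => p.1 = p.2 ∧ q.1 ≠ q.2 ∧ (q.1 = p.1 ∨ q.2 = p.1)

theorem adj1 {N : ℕ} (i j : Fin N) (h : i ≠ j) : (G N).Adj (i, i) (i, j) := by
  unfold G
  rw [SimpleGraph.fromRel_adj]
  exact ⟨by simp [h], Or.inl ⟨rfl, h, Or.inl rfl⟩⟩

theorem adj2 {N : ℕ} (i j : Fin N) (h : i ≠ j) : (G N).Adj (j, j) (i, j) := by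
  unfold G
  rw [SimpleGraph.fromRel_adj]
  exact ⟨by simp [h.symm], Or.inl ⟨rfl, h, Or.inr rfl⟩⟩

theorem adj_off {N : ℕ} (i j : Fin N) (h : i ≠ j) (q : Fin N × Fin N)
    (hq : (G N).Adj (i, j) q) : q = (i, i) ∨ q = (j, j) := by
  unfold G at hq
  rw [SimpleGraph.fromRel_adj] at hq
  obtain ⟨a, b⟩ := q
  rcases hq.2 with h1 | ⟨h1, -, h2 | h2⟩
  · exact absurd h1.1 h
  · simp only at h1 h2
    left; rw [← h1, ← h2]
  · simp only at h1 h2
    right; rw [← h1, ← h2]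

theorem conn (N : ℕ) : (G (N + 1)).Connected := by
  have h1 : ∀ p : Fin (N + 1) × Fin (N + 1), (G (N + 1)).Reachable p (p.1, p.1) := by
    rintro ⟨i, j⟩
    by_cases h : i = j
    · rw [← h]
    · exact (adj1 i j h).symm.reachable
  have h2 : ∀ i j : Fin (N + 1), (G (N + 1)).Reachable (i, i) (j, j) := by
    intro i j
    by_cases h : i = j
    · rw [← h]
    · exact (adj1 i j h).reachable.trans (adj2 i j h).symm.reachable
  exact ⟨fun p q => ((h1 p).trans (h2 _ _)).trans (h1 q).symm⟩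

theorem deg (N : ℕ) (p : Fin (N + 2) × Fin (N + 2)) : 2 ≤ ((G (N + 2)).neighborSet p).ncard := by
  obtain ⟨i, j⟩ := p
  rw [show 2 ≤ ((G (N + 2)).neighborSet (i, j)).ncard ↔ 1 < ((G (N + 2)).neighborSet (i, j)).ncard
    from Iff.rfl, Set.one_lt_ncard (Set.toFinite _)]
  by_cases h : i = j
  · subst h
    obtain ⟨j, hj⟩ := exists_ne i
    exact ⟨(i, j), adj1 i j hj.symm, (j, i), adj2 j i hj, by simp [hj.symm]⟩
  · exact ⟨(i, i), (adj1 i j h).symm, (j, j), (adj2 i j h).symm, by simp [h]⟩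

theorem supp {V : Type} [Fintype V] (D : SimpleGraph V) (B : Finset V)
    (h : ∀ p ∈ B, ∃ q, D.Adj p q) : B.card ≤ 2 * D.edgeSet.ncard := by
  classical
  rw [← SimpleGraph.coe_edgeFinset, Set.ncard_coe_finset,
    ← SimpleGraph.sum_degrees_eq_twice_card_edges, Finset.card_eq_sum_ones]
  exact (Finset.sum_le_sum fun p hp => (D.degree_pos_iff_exists_adj p).2 (h p hp)).trans
    (Finset.sum_le_sum_of_subset (Finset.subset_univ _))

theorem lower (k : ℕ) (H : SimpleGraph (Fin (2 * k + 1) × Fin (2 * k + 1)))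
    (S T : Set (Fin (2 * k + 1) × Fin (2 * k + 1))) (hd : Disjoint S T)
    (hS : ∀ v, ∃ u ∈ S, H.Adj v u) (hT : ∀ v, ∃ u ∈ T, H.Adj v u) :
    k * k ≤ (H \ G (2 * k + 1)).edgeSet.ncard := by
  classical
  set D := H \ G (2 * k + 1) with hD
  set A := Finset.univ.filter fun i : Fin (2 * k + 1) => (i, i) ∈ S with hA
  have key : ∀ p ∈ A.offDiag ∪ Aᶜ.offDiag, ∃ q, D.Adj p q := by
    rintro ⟨i, j⟩ hp
    simp only [Finset.mem_union, Finset.mem_offDiag, hA, Finset.mem_compl, Finset.mem_filter,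
      Finset.mem_univ, true_and] at hp
    rcases hp with ⟨h1, h2, h3⟩ | ⟨h1, h2, h3⟩
    · obtain ⟨u, hu, hu'⟩ := hT (i, j)
      refine ⟨u, hu', fun hg => ?_⟩
      rcases adj_off i j h3 u hg with rfl | rfl
      · exact Set.disjoint_left.1 hd h1 hu
      · exact Set.disjoint_left.1 hd h2 hu
    · obtain ⟨u, hu, hu'⟩ := hS (i, j)
      refine ⟨u, hu', fun hg => ?_⟩
      rcases adj_off i j h3 u hg with rfl | rfl
      · exact h1 hu
      · exact h2 hu
  have h1 := supp D _ key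
  rw [Finset.card_union_of_disjoint (by
    rw [Finset.disjoint_left]
    intro p h1 h2
    exact Finset.mem_compl.1 (Finset.mem_offDiag.1 h2).1 (Finset.mem_offDiag.1 h1).1),
    Finset.offDiag_card, Finset.offDiag_card] at h1
  have h2 : A.card + Aᶜ.card = 2 * k + 1 := by simp
  have h4 := Nat.le_mul_self A.card
  have h5 := Nat.le_mul_self Aᶜ.card
  generalize A.card = a at *
  generalize Aᶜ.card = b at *
  zify [h4, h5] at h1 h2 ⊢
  have h6 : 1 ≤ ((a : ℤ) - b) ^ 2 := by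
    have : (a : ℤ) - b ≠ 0 := by omega
    have := sq_pos_of_ne_zero this
    omega
  nlinarith

theorem result : ∀ N : ℕ, ∃ (V : Type) (_ : Fintype V) (G : SimpleGraph V),
    N ≤ Fintype.card V ∧ 4 ≤ Fintype.card V ∧ G.Connected ∧
    (∀ v, 2 ≤ (G.neighborSet v).ncard) ∧
    ∀ H : SimpleGraph V, G ≤ H →
      (∃ S T : Set V, Disjoint S T ∧ (∀ v, ∃ u ∈ S, H.Adj v u) ∧ ∀ v, ∃ u ∈ T, H.Adj v u) →
      (1 / 4 : ℝ) * (Fintype.card V - 2 * Real.sqrt (Fintype.card V)) <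
        ((H \ G).edgeSet.ncard : ℝ) := by
  intro N
  refine ⟨_, inferInstance, G (2 * (N + 1) + 1), ?_, ?_, conn _, deg (2 * N + 1), ?_⟩
  · simp only [Fintype.card_prod, Fintype.card_fin]; nlinarith
  · simp only [Fintype.card_prod, Fintype.card_fin]; nlinarith
  · rintro H - ⟨S, T, hd, hS, hT⟩
    have h : (((N + 1) * (N + 1) : ℕ) : ℝ) ≤ _ := Nat.cast_le.2 (lower (N + 1) H S T hd hS hT)
    refine lt_of_lt_of_le ?_ h
    simp only [Fintype.card_prod, Fintype.card_fin]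
    rw [Nat.cast_mul, Real.sqrt_mul_self (Nat.cast_nonneg _)]
    push_cast
    nlinarith

end Pool.Agent.Results.MP_df5a7a_co.Counter
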